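import Mathlib

/-!
# The generalized Clifford algebra of a hyperbolic polynomial, and the Vamos polynomial

Definitions only (with the facts needed to make them).
-/

set_option autoImplicit false
open Polynomial

namespace Pool.Agent.LibVamos

/-- The bases of the Vamos matroid on `Fin 8`, with pairs `{0,1}`, `{2,3}`, `{4,5}`, `{6,7}`. -/
def bases : Finset (Finset (Fin 8)) :=
  (Finset.univ.powersetCard 4) \
    {{0, 1, 2, 3}, {0, 1, 4, 5}, {0, 1, 6, 7}, {2, 3, 4, 5}, {2, 3, 6, 7}}

/-- The Vamos polynomial. -/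
noncomputable def vamos : MvPolynomial (Fin 8) ℝ := ∑ S ∈ bases, ∏ i ∈ S, MvPolynomial.X i

/-- The polynomial `h(a - t e)` in the variable `t`. -/
noncomputable def pencil {n : ℕ} (h : MvPolynomial (Fin n) ℝ) (a e : Fin n → ℝ) : ℝ[X] :=
  MvPolynomial.aeval (fun i => C (a i) - X * C (e i)) h

theorem star_aeval {B : Type*} [Ring B] [StarRing B] [Algebra ℝ B] [StarModule ℝ B] {x : B}
    (hx : star x = x) (f : ℝ[X]) : star (aeval x f) = aeval x f := by
  induction f using Polynomial.induction_on' with
  | add p q hp hq => rw [map_add, star_add, hp, hq]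
  | monomial n a =>
    rw [Polynomial.aeval_monomial, star_mul, star_pow, hx]
    have : star (algebraMap ℝ B a) = algebraMap ℝ B a := by
      rw [Algebra.algebraMap_eq_smul_one, star_smul, star_one]; simp
    rw [this]
    exact (Algebra.commutes a _).symm


/-- The involution induced on the quotient by a two-sided ideal stable under the involution. -/
@[reducible]
def quotStar {R : Type*} [Ring R] [StarRing R] (I : TwoSidedIdeal R)
    (hI : ∀ x ∈ I, star x ∈ I) : StarRing I.ringCon.Quotient where
  star := Quotient.map' star (by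
    intro x y hxy
    have h1 : x - y ∈ I := (TwoSidedIdeal.rel_iff I x y).1 hxy
    have h2 := hI _ h1
    rw [star_sub] at h2
    exact (TwoSidedIdeal.rel_iff I _ _).2 h2)
  star_involutive := by
    intro x
    induction x using Quotient.inductionOn' with
    | h x => exact congrArg Quotient.mk'' (star_star x)
  star_mul := by
    intro x y
    induction x using Quotient.inductionOn' with
    | h x =>
      induction y using Quotient.inductionOn' with
      | h y => exact congrArg Quotient.mk'' (star_mul x y)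
  star_add := by
    intro x y
    induction x using Quotient.inductionOn' with
    | h x =>
      induction y using Quotient.inductionOn' with
      | h y => exact congrArg Quotient.mk'' (star_add x y)

theorem quotStar_mk {R : Type*} [Ring R] [StarRing R] (I : TwoSidedIdeal R)
    (hI : ∀ x ∈ I, star x ∈ I) (x : R) :
    (quotStar I hI).star (x : I.ringCon.Quotient) = ((star x : R) : I.ringCon.Quotient) := rfl

/-- The free unital complex algebra in `n` variables, as a type of its own; it carries the
conjugate-linear involution fixing the generators. -/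
def FreeStar (n : ℕ) : Type := FreeAlgebra ℂ (Fin n)

noncomputable instance (n : ℕ) : Ring (FreeStar n) := inferInstanceAs (Ring (FreeAlgebra ℂ (Fin n)))

noncomputable instance (n : ℕ) : Algebra ℂ (FreeStar n) :=
  inferInstanceAs (Algebra ℂ (FreeAlgebra ℂ (Fin n)))

/-- The generators `z_i`. -/
noncomputable def gen {n : ℕ} (i : Fin n) : FreeStar n := FreeAlgebra.ι ℂ i

/-- Complex conjugation of the coefficients of noncommutative polynomials. -/
noncomputable def conjCoeff (n : ℕ) : FreeAlgebra ℂ (Fin n) →+* FreeAlgebra ℂ (Fin n) :=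
  (FreeAlgebra.equivMonoidAlgebraFreeMonoid (R := ℂ) (X := Fin n)).symm.toRingEquiv.toRingHom.comp
    ((MonoidAlgebra.mapRingHom (FreeMonoid (Fin n)) (starRingEnd ℂ)).comp
      (FreeAlgebra.equivMonoidAlgebraFreeMonoid (R := ℂ) (X := Fin n)).toRingEquiv.toRingHom)

theorem conjCoeff_algebraMap (n : ℕ) (c : ℂ) :
    conjCoeff n (algebraMap ℂ _ c) = algebraMap ℂ _ (starRingEnd ℂ c) := by
  have h1 : (FreeAlgebra.equivMonoidAlgebraFreeMonoid (R := ℂ) (X := Fin n))
      (algebraMap ℂ _ c) = algebraMap ℂ _ c := AlgEquiv.commutes _ c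
  show (FreeAlgebra.equivMonoidAlgebraFreeMonoid (R := ℂ) (X := Fin n)).symm
    (MonoidAlgebra.mapRingHom (FreeMonoid (Fin n)) (starRingEnd ℂ)
      ((FreeAlgebra.equivMonoidAlgebraFreeMonoid (R := ℂ) (X := Fin n)) (algebraMap ℂ _ c))) = _
  rw [h1]
  have h2 : MonoidAlgebra.mapRingHom (FreeMonoid (Fin n)) (starRingEnd ℂ) (algebraMap ℂ _ c) =
      algebraMap ℂ _ (starRingEnd ℂ c) := by
    simp [MonoidAlgebra.coe_algebraMap]
  rw [h2]
  exact AlgEquiv.commutes _ _

theorem conjCoeff_ι (n : ℕ) (i : Fin n) :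
    conjCoeff n (FreeAlgebra.ι ℂ i) = FreeAlgebra.ι ℂ i := by
  have h1 : (FreeAlgebra.equivMonoidAlgebraFreeMonoid (R := ℂ) (X := Fin n))
      (FreeAlgebra.ι ℂ i) = MonoidAlgebra.single (FreeMonoid.of i) 1 := by
    simp [FreeAlgebra.equivMonoidAlgebraFreeMonoid]
  show (FreeAlgebra.equivMonoidAlgebraFreeMonoid (R := ℂ) (X := Fin n)).symm
    (MonoidAlgebra.mapRingHom (FreeMonoid (Fin n)) (starRingEnd ℂ)
      ((FreeAlgebra.equivMonoidAlgebraFreeMonoid (R := ℂ) (X := Fin n)) (FreeAlgebra.ι ℂ i))) = _
  rw [h1]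
  have h2 : MonoidAlgebra.mapRingHom (FreeMonoid (Fin n)) (starRingEnd ℂ)
      (MonoidAlgebra.single (FreeMonoid.of i) 1) = MonoidAlgebra.single (FreeMonoid.of i) 1 := by
    simp
  rw [h2, ← h1, AlgEquiv.symm_apply_apply]

/-- The involution of the free algebra: reverse all words and conjugate all coefficients. -/
noncomputable instance (n : ℕ) : StarRing (FreeStar n) where
  star x := conjCoeff n (star (show FreeAlgebra ℂ (Fin n) from x))
  star_involutive := by
    intro x
    show conjCoeff n (star (conjCoeff n (star (show FreeAlgebra ℂ (Fin n) from x)))) = x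
    refine FreeAlgebra.induction (R := ℂ) (X := Fin n)
      (motive := fun x => conjCoeff n (star (conjCoeff n (star x))) = x) ?_ ?_ ?_ ?_ x
    · intro c
      rw [FreeAlgebra.star_algebraMap, conjCoeff_algebraMap, FreeAlgebra.star_algebraMap,
        conjCoeff_algebraMap, Complex.conj_conj]
    · intro i
      rw [FreeAlgebra.star_ι, conjCoeff_ι, FreeAlgebra.star_ι, conjCoeff_ι]
    · intro a b ha hb
      rw [star_mul, map_mul, star_mul, map_mul, ha, hb]
    · intro a b ha hb
      rw [star_add, map_add, star_add, map_add, ha, hb]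
  star_mul x y := by
    show conjCoeff n (star ((show FreeAlgebra ℂ (Fin n) from x) *
      (show FreeAlgebra ℂ (Fin n) from y))) = _
    rw [star_mul, map_mul]; rfl
  star_add x y := by
    show conjCoeff n (star ((show FreeAlgebra ℂ (Fin n) from x) +
      (show FreeAlgebra ℂ (Fin n) from y))) = _
    rw [star_add, map_add]; rfl

theorem star_gen {n : ℕ} (i : Fin n) : star (gen i) = gen i := by
  show conjCoeff n (star (FreeAlgebra.ι ℂ i)) = _
  rw [FreeAlgebra.star_ι, conjCoeff_ι]; rfl

theorem star_algMap {n : ℕ} (c : ℂ) :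
    star (algebraMap ℂ (FreeStar n) c) = algebraMap ℂ (FreeStar n) (starRingEnd ℂ c) := by
  show conjCoeff n (star (algebraMap ℂ (FreeAlgebra ℂ (Fin n)) c)) = _
  rw [FreeAlgebra.star_algebraMap, conjCoeff_algebraMap]; rfl

instance (n : ℕ) : StarModule ℂ (FreeStar n) where
  star_smul c x := by
    rw [Algebra.smul_def, star_mul, star_algMap, Algebra.smul_def, ← Algebra.commutes]; rfl

/-- The element `a • z = ∑ a_i z_i`. -/
noncomputable def lin {n : ℕ} (a : Fin n → ℝ) : FreeStar n := ∑ i, a i • gen i

/-- The generators of the ideal `J_e(h)`. -/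
def relators {n : ℕ} (h : MvPolynomial (Fin n) ℝ) (e : Fin n → ℝ) : Set (FreeStar n) :=
  {x | ∃ a : Fin n → ℝ, x = Polynomial.aeval (lin a) (pencil h a e)} ∪ {1 - lin e}

/-- The two-sided ideal `J_e(h)`. -/
noncomputable def idealJ {n : ℕ} (h : MvPolynomial (Fin n) ℝ) (e : Fin n → ℝ) :
    TwoSidedIdeal (FreeStar n) := TwoSidedIdeal.span (relators h e)

theorem star_lin {n : ℕ} (a : Fin n → ℝ) : star (lin a) = lin a := by
  rw [lin, star_sum]
  refine Finset.sum_congr rfl fun i _ => ?_
  rw [star_smul, star_gen]; simp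

theorem idealJ_star {n : ℕ} (h : MvPolynomial (Fin n) ℝ) (e : Fin n → ℝ) :
    ∀ x ∈ idealJ h e, star x ∈ idealJ h e := by
  intro x hx
  let J' : TwoSidedIdeal (FreeStar n) := TwoSidedIdeal.mk' {x | star x ∈ idealJ h e}
    (by simp)
    (fun {x y} hx hy => by
      simp only [Set.mem_ofPred_eq, star_add] at *; exact TwoSidedIdeal.add_mem _ hx hy)
    (fun {x} hx => by
      simp only [Set.mem_ofPred_eq, star_neg] at *; exact TwoSidedIdeal.neg_mem _ hx)
    (fun {x y} hy => by
      simp only [Set.mem_ofPred_eq, star_mul] at *; exact TwoSidedIdeal.mul_mem_right _ _ _ hy)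
    (fun {x y} hx => by
      simp only [Set.mem_ofPred_eq, star_mul] at *; exact TwoSidedIdeal.mul_mem_left _ _ _ hx)
  have h1 : idealJ h e ≤ J' := by
    rw [idealJ, TwoSidedIdeal.span_le]
    intro y hy
    show y ∈ J'
    rw [TwoSidedIdeal.mem_mk']
    show star y ∈ idealJ h e
    have h2 : star y = y := by
      rcases hy with ⟨a, rfl⟩ | hy
      · exact star_aeval (star_lin a) _
      · rw [Set.mem_singleton_iff.1 hy, star_sub, star_one, star_lin]
    rw [h2]
    exact TwoSidedIdeal.subset_span hy
  have h3 := h1 hx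
  rw [TwoSidedIdeal.mem_mk'] at h3
  exact h3

/-- The generalized Clifford algebra `A_e(h)`. -/
abbrev CliffordAlg {n : ℕ} (h : MvPolynomial (Fin n) ℝ) (e : Fin n → ℝ) : Type :=
  (idealJ h e).ringCon.Quotient

noncomputable instance {n : ℕ} (h : MvPolynomial (Fin n) ℝ) (e : Fin n → ℝ) :
    StarRing (CliffordAlg h e) := quotStar (idealJ h e) (idealJ_star h e)

/-- Sums of hermitian squares in a `*`-ring. -/
def SumSq (A : Type*) [Ring A] [StarRing A] : Set A :=
  {x | ∃ (m : ℕ) (b : Fin m → A), 1 ≤ m ∧ x = ∑ i, star (b i) * b i}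

end Pool.Agent.LibVamos
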