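import Mathlib
import Pool.Agent.LibVamos.Defs

/-!
# Hermitian squares in the generalized Clifford algebra of the Vamos polynomial

The file proves that `-1` is a sum of hermitian squares in the algebra `A_e(h)` of the Vamos
polynomial `h` and `e = (1, …, 1)`.

Idea.  If `-1` were no such sum, the quotient of `A_e(h)` by the ideal of all `a` with
`ε - a* a` in the cone for every `ε > 0` is a nonzero `*`-algebra in which sums of hermitian
squares vanish only trivially.  There the generators `m_i` are positive multiples of their squares,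
and the relations `h(a - t e)` at `t = ∑ a_i m_i`, for `a` the indicator of a three-element set `U`
plus `s` times a unit vector, expanded in powers of `s`, show: for a four-element circuit
`insert i U` one has `m_i = (∑_{j ∈ U} m_j) y`, and for a basis `insert i U` the right ideals
`m_j B` are independent and span.  The classical argument that the Vamos matroid is not
representable then works for right ideals and gives `1 = 0`.
-/

set_option autoImplicit false
set_option linter.unusedSectionVars false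
open Polynomial

namespace Pool.Agent.LibVamos

/-! ## Proper `*`-algebras -/

section Abstract

variable {B : Type*} [Ring B] [StarRing B] [Algebra ℝ B] [StarModule ℝ B]

/-- Finite sums of hermitian squares vanish only if all terms vanish. -/
def Proper (B : Type*) [Ring B] [StarRing B] : Prop :=
  ∀ (s : Finset (Fin 8)) (x : Fin 8 → B), ∑ i ∈ s, star (x i) * x i = 0 → ∀ i ∈ s, x i = 0

theorem Proper.one {B : Type*} [Ring B] [StarRing B] (hp : Proper B) {x : B}
    (h : star x * x = 0) : x = 0 := by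
  have := hp {0} (fun _ => x) (by simpa using h) 0 (by simp)
  simpa using this

theorem Proper.pow4 {B : Type*} [Ring B] [StarRing B] (hp : Proper B) {y : B} (hy : star y = y)
    (h : y ^ 4 = 0) : y = 0 := by
  have h2 : y ^ 2 = 0 := by
    apply hp.one
    rw [star_pow, hy, ← pow_add]
    exact h
  apply hp.one
  rw [hy, ← sq]
  exact h2

/-- evaluation of a polynomial with coefficients in `B` at the central element `s`. -/
noncomputable def ev (s : ℝ) : B[X] →ₐ[ℝ] B :=
  { Polynomial.eval₂RingHom' (RingHom.id B) (algebraMap ℝ B s)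
      (fun a => (Algebra.commutes s a).symm) with
    commutes' := by
      intro r
      show Polynomial.eval₂ (RingHom.id B) (algebraMap ℝ B s) (algebraMap ℝ B[X] r) = _
      simp [Polynomial.algebraMap_apply] }

theorem ev_apply (s : ℝ) (Z : B[X]) :
    ev s Z = ∑ k ∈ Finset.range (Z.natDegree + 1), s ^ k • Z.coeff k := by
  show Polynomial.eval₂ (RingHom.id B) (algebraMap ℝ B s) Z = _
  rw [Polynomial.eval₂_eq_sum_range]
  refine Finset.sum_congr rfl fun k _ => ?_
  rw [← map_pow, RingHom.id_apply, ← Algebra.commutes, Algebra.smul_def]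

theorem ev_C (s : ℝ) (b : B) : ev s (C b) = b := by
  show Polynomial.eval₂ (RingHom.id B) (algebraMap ℝ B s) (C b) = _
  simp

theorem ev_X (s : ℝ) : ev s (X : B[X]) = algebraMap ℝ B s := by
  show Polynomial.eval₂ (RingHom.id B) (algebraMap ℝ B s) X = _
  simp

theorem eq_zero_of_ev {Z : B[X]} (h : ∀ s : ℝ, ev s Z = 0) : Z = 0 := by
  ext k
  rw [Polynomial.coeff_zero]
  apply (Module.forall_dual_apply_eq_zero_iff ℝ _).1
  intro φ
  set q : ℝ[X] := ∑ k ∈ Finset.range (Z.natDegree + 1), Polynomial.monomial k (φ (Z.coeff k))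
    with hq
  have hq0 : q = 0 := by
    apply Polynomial.funext
    intro s
    have h1 := congrArg φ (h s)
    rw [ev_apply, map_sum, map_zero] at h1
    rw [hq, Polynomial.eval_finsetSum, Polynomial.eval_zero, ← h1]
    refine Finset.sum_congr rfl fun k _ => ?_
    rw [Polynomial.eval_monomial, map_smul, smul_eq_mul, mul_comm]
  by_cases hk : k < Z.natDegree + 1
  · have h2 := congrArg (fun p => Polynomial.coeff p k) hq0
    simp only [hq, Polynomial.finsetSum_coeff, Polynomial.coeff_monomial,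
      Polynomial.coeff_zero] at h2
    rw [Finset.sum_ite_eq' ] at h2
    simpa [hk] using h2
  · rw [Polynomial.coeff_eq_zero_of_natDegree_lt (by omega), map_zero]

theorem expand (N M : B) (hN : star N = N) (hM : star M = M) (f g : ℝ[X]) (μ : ℝ)
    (H : ∀ s : ℝ, (N + s • M) * (aeval (N + s • M) f + s • aeval (N + s • M) g)
      + (s * μ) • (1 : B) = 0) :
    ∃ (K : ℕ → B) (L : B) (d : ℕ), (∀ k, star (K k) = K k) ∧ K 0 = - aeval N f ∧ N * K 0 = 0 ∧
      N * K 1 + M * K 0 = μ • (1 : B) ∧ (∀ k ≥ 1, N * K (k + 1) + M * K k = 0) ∧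
      (∀ k ≥ d, K k = 0) ∧ L * (N + M) = μ • (1 : B) := by
  set P : B[X] := C N + X * C M with hP
  set Kp : B[X] := - (aeval P f + X * aeval P g) with hKp
  have evP : ∀ s : ℝ, ev s P = N + s • M := by
    intro s
    rw [hP, map_add, map_mul, ev_C, ev_C, ev_X, Algebra.smul_def]
  have evK : ∀ s : ℝ, ev s Kp = - (aeval (N + s • M) f + s • aeval (N + s • M) g) := by
    intro s
    rw [hKp, map_neg, map_add, map_mul, ev_X, ← Polynomial.aeval_algHom_apply,
      ← Polynomial.aeval_algHom_apply, evP, Algebra.smul_def s (aeval (N + s • M) g)]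
  have hPK : P * Kp = C (μ • (1 : B)) * X := by
    rw [← sub_eq_zero]
    apply eq_zero_of_ev
    intro s
    rw [map_sub, map_mul, map_mul, evP, evK, ev_C, ev_X, mul_neg]
    have := H s
    rw [Algebra.smul_def (s * μ), mul_one, map_mul] at this
    rw [Algebra.smul_def μ, mul_one, ← Algebra.commutes s (algebraMap ℝ B μ)]
    rw [neg_sub_left, add_comm, this, neg_zero]
  have hstarN : ∀ s : ℝ, star (N + s • M) = N + s • M := by
    intro s; rw [star_add, star_smul, hN, hM]; simp
  have hsK : ∀ k, star (Kp.coeff k) = Kp.coeff k := by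
    set D : B[X] := ∑ k ∈ Finset.range (Kp.natDegree + 1),
      Polynomial.monomial k (star (Kp.coeff k) - Kp.coeff k) with hD
    have hD0 : D = 0 := by
      apply eq_zero_of_ev
      intro s
      have h1 : star (ev s Kp) = ev s Kp := by
        rw [evK, star_neg, star_add, star_smul, star_aeval (hstarN s), star_aeval (hstarN s)]
        simp
      have h2 : ev s D = star (ev s Kp) - ev s Kp := by
        rw [hD, map_sum, ev_apply s Kp, star_sum, ← Finset.sum_sub_distrib]
        refine Finset.sum_congr rfl fun k _ => ?_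
        rw [← Polynomial.C_mul_X_pow_eq_monomial, map_mul, map_pow, ev_C, ev_X, ← map_pow,
          ← Algebra.commutes, ← Algebra.smul_def, star_smul, smul_sub]
        simp
      rw [h2, h1, sub_self]
    intro k
    by_cases hk : k < Kp.natDegree + 1
    · have h2 := congrArg (fun p => Polynomial.coeff p k) hD0
      simp only [hD, Polynomial.finsetSum_coeff, Polynomial.coeff_monomial,
        Polynomial.coeff_zero] at h2
      rw [Finset.sum_ite_eq' ] at h2
      have h3 : star (Kp.coeff k) - Kp.coeff k = 0 := by simpa [hk] using h2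
      exact sub_eq_zero.1 h3
    · rw [Polynomial.coeff_eq_zero_of_natDegree_lt (by omega), star_zero]
  have hc0 : N * Kp.coeff 0 = 0 := by
    have := congrArg (fun p => Polynomial.coeff p 0) hPK
    simp only [hP, add_mul, mul_assoc, Polynomial.coeff_add, Polynomial.coeff_C_mul,
      Polynomial.coeff_X_mul_zero, Polynomial.coeff_X_zero, mul_zero, add_zero] at this
    exact this
  have hck : ∀ k, N * Kp.coeff (k + 1) + M * Kp.coeff k = (C (μ • (1 : B)) * X).coeff (k + 1) := by
    intro k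
    have := congrArg (fun p => Polynomial.coeff p (k + 1)) hPK
    simp only [hP, add_mul, mul_assoc, Polynomial.coeff_add, Polynomial.coeff_C_mul,
      Polynomial.coeff_X_mul] at this
    rw [this, Polynomial.coeff_C_mul]
  refine ⟨fun k => Kp.coeff k, ev 1 Kp, Kp.natDegree + 1, hsK, ?_, hc0, ?_, ?_, ?_, ?_⟩
  · have := evK 0
    rw [zero_smul, zero_smul, add_zero, add_zero] at this
    show Kp.coeff 0 = _
    rw [← this, ev_apply, Finset.sum_range_succ']
    simp
  · have := hck 0
    simpa using this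
  · intro k hk
    have := hck k
    rw [this, Polynomial.coeff_C_mul, Polynomial.coeff_X_of_ne_one (by omega), mul_zero]
  · intro k hk
    exact Polynomial.coeff_eq_zero_of_natDegree_lt (by omega)
  · have h1 : star ((ev 1 Kp) * (N + (1 : ℝ) • M)) = star (μ • (1 : B)) := by
      rw [star_mul, hstarN 1]
      have h2 : star (ev 1 Kp) = ev 1 Kp := by
        rw [evK, star_neg, star_add, star_smul, star_aeval (hstarN 1), star_aeval (hstarN 1)]
        simp
      rw [h2, ← evP, ← map_mul, hPK, map_mul, ev_C, ev_X]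
      simp
    have h3 := star_injective h1
    rwa [one_smul] at h3

theorem wpos (hp : Proper B) (m : Fin 8 → B) (hsa : ∀ i, star (m i) = m i) (c : Fin 8 → ℝ)
    (hc : ∀ i, 0 < c i) (hsq : ∀ i, m i = c i • (m i * m i)) (U : Finset (Fin 8)) (x : B)
    (h : star x * (∑ j ∈ U, m j) * x = 0) : ∀ j ∈ U, m j * x = 0 := by
  have h1 : ∑ j ∈ U, star (√(c j) • (m j * x)) * (√(c j) • (m j * x)) = 0 := by
    rw [← h, Finset.mul_sum, Finset.sum_mul]
    refine Finset.sum_congr rfl fun j _ => ?_
    rw [star_smul, star_mul, hsa, smul_mul_smul_comm]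
    simp only [star_trivial]
    rw [Real.mul_self_sqrt (hc j).le]
    conv_rhs => rw [hsq j]
    simp only [mul_assoc, mul_smul_comm, smul_mul_assoc]
  intro j hj
  have h2 := hp U (fun j => √(c j) • (m j * x)) h1 j hj
  have h3 : √(c j) ≠ 0 := (Real.sqrt_pos.2 (hc j)).ne'
  exact (smul_eq_zero.1 h2).resolve_left h3

theorem circ (hp : Proper B) (m : Fin 8 → B) (hsa : ∀ i, star (m i) = m i) (c : Fin 8 → ℝ)
    (hc : ∀ i, 0 < c i) (hsq : ∀ i, m i = c i • (m i * m i)) (U : Finset (Fin 8)) (i : Fin 8)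
    (f g : ℝ[X]) (hf : f.coeff 0 ≠ 0)
    (H : ∀ s : ℝ, ((∑ j ∈ U, m j) + s • m i) * (aeval ((∑ j ∈ U, m j) + s • m i) f
      + s • aeval ((∑ j ∈ U, m j) + s • m i) g) = 0) :
    ∃ y : B, m i = (∑ j ∈ U, m j) * y := by
  set N := ∑ j ∈ U, m j with hN
  have hNs : star N = N := by rw [hN, star_sum]; exact Finset.sum_congr rfl fun j _ => hsa j
  obtain ⟨K, L, d, hK, hK0, h0, h1, -, -, -⟩ := expand N (m i) hNs (hsa i) f g 0 (by
    intro s; rw [mul_zero, zero_smul, add_zero]; exact H s)
  have hK0N : K 0 * N = 0 := by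
    have := congrArg star h0
    rwa [star_mul, hK, hNs, star_zero] at this
  have hz : star (K 0) * (∑ j ∈ {i}, m j) * K 0 = 0 := by
    rw [Finset.sum_singleton, hK, mul_assoc]
    have : m i * K 0 = - (N * K 1) := by
      rw [zero_smul] at h1; exact eq_neg_of_add_eq_zero_right h1
    rw [this, mul_neg, ← mul_assoc, hK0N, zero_mul, neg_zero]
  have hMK : m i * K 0 = 0 := wpos hp m hsa c hc hsq {i} (K 0) hz i (by simp)
  have hKM : K 0 * m i = 0 := by
    have := congrArg star hMK
    rwa [star_mul, hK, hsa, star_zero] at this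
  rw [hK0, ← Polynomial.divX_mul_X_add f, map_add, map_mul, aeval_X, aeval_C] at hKM
  have hcomm : aeval N f.divX * N = N * aeval N f.divX := by
    have h7 : aeval N (f.divX * X) = aeval N (X * f.divX) := by rw [mul_comm]
    rwa [map_mul, map_mul, aeval_X] at h7
  rw [hcomm, neg_mul, neg_eq_zero, add_mul, ← Algebra.smul_def] at hKM
  refine ⟨-((f.coeff 0)⁻¹ • (aeval N f.divX * m i)), ?_⟩
  have h5 : f.coeff 0 • m i = - (N * aeval N f.divX * m i) := eq_neg_of_add_eq_zero_right hKM
  have h6 : (f.coeff 0)⁻¹ • (f.coeff 0 • m i) = m i := by rw [smul_smul, inv_mul_cancel₀ hf, one_smul]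
  rw [mul_neg, mul_smul_comm, ← smul_neg, ← mul_assoc, ← h5, h6]

theorem indep (hp : Proper B) (m : Fin 8 → B) (hsa : ∀ i, star (m i) = m i) (c : Fin 8 → ℝ)
    (hc : ∀ i, 0 < c i) (hsq : ∀ i, m i = c i • (m i * m i)) (U : Finset (Fin 8)) (i : Fin 8)
    (f g : ℝ[X])
    (H : ∀ s : ℝ, ((∑ j ∈ U, m j) + s • m i) * (aeval ((∑ j ∈ U, m j) + s • m i) f
      + s • aeval ((∑ j ∈ U, m j) + s • m i) g) + s • (1 : B) = 0) :
    ∃ K0 K1 : B, (∀ j ∈ U, K0 * m j = 0) ∧ m i * K0 * m i = m i ∧
      (∑ j ∈ U, m j) * K1 + m i * K0 = 1 := by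
  set N := ∑ j ∈ U, m j with hN
  have hNs : star N = N := by rw [hN, star_sum]; exact Finset.sum_congr rfl fun j _ => hsa j
  obtain ⟨K, L, d, hK, hK0, h0, h1, hk, hd, hL⟩ := expand N (m i) hNs (hsa i) f g 1 (by
    intro s; rw [mul_one]; exact H s)
  rw [one_smul] at h1 hL
  have hvan : ∀ k, (∀ l ≥ k, K (l + 2) = 0) → ∀ l, K (l + 2) = 0 := by
    intro k
    induction k with
    | zero => intro h l; exact h l (Nat.zero_le _)
    | succ k ih =>
      intro h
      apply ih
      intro l hl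
      rcases Nat.lt_or_ge k l with hkl | hkl
      · exact h l hkl
      · have hlk : l = k := le_antisymm hkl hl
        subst hlk
        have e1 : N * K (l + 3) + m i * K (l + 2) = 0 := hk (l + 2) (by omega)
        have e2 : K (l + 3) = 0 := h (l + 1) (by omega)
        rw [e2, mul_zero, zero_add] at e1
        have e3 : N * K (l + 2) + m i * K (l + 1) = 0 := hk (l + 1) (by omega)
        have e4 : K (l + 2) * m i = 0 := by
          have := congrArg star e1
          rwa [star_mul, hK, hsa, star_zero] at this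
        have e5 : star (K (l + 2)) * N * K (l + 2) = 0 := by
          have : N * K (l + 2) = - (m i * K (l + 1)) := eq_neg_of_add_eq_zero_left e3
          rw [hK, mul_assoc, this, mul_neg, ← mul_assoc, e4, zero_mul, neg_zero]
        have e6 := wpos hp m hsa c hc hsq U (K (l + 2)) e5
        have e7 : N * K (l + 2) = 0 := by
          rw [hN, Finset.sum_mul]; exact Finset.sum_eq_zero e6
        calc K (l + 2) = L * (N + m i) * K (l + 2) := by rw [hL, one_mul]
          _ = 0 := by rw [mul_assoc, add_mul, e7, e1, add_zero, mul_zero]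
  have hK2 : K 2 = 0 := hvan d (fun l hl => hd (l + 2) (by omega)) 0
  have e1 : m i * K 1 = 0 := by
    have := hk 1 le_rfl
    rwa [hK2, mul_zero, zero_add] at this
  have e2 : K 1 * m i = 0 := by
    have := congrArg star e1
    rwa [star_mul, hK, hsa, star_zero] at this
  refine ⟨K 0, K 1, ?_, ?_, h1⟩
  · have e3 : star (K 0) * N * K 0 = 0 := by rw [mul_assoc, h0, mul_zero]
    intro j hj
    have := congrArg star (wpos hp m hsa c hc hsq U (K 0) e3 j hj)
    rwa [star_mul, hK, hsa, star_zero] at this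
  · have e4 : m i * K 0 = 1 - N * K 1 := eq_sub_of_add_eq' h1
    rw [e4, sub_mul, mul_assoc, e2, mul_zero, sub_zero, one_mul]

theorem ingleton {B : Type*} [Ring B] (p : Fin 8 → B)
    (hA : ∃ y, p 0 = (p 1 + p 2 + p 3) * y) (hA' : ∃ y, p 3 = (p 0 + p 1 + p 2) * y)
    (hB : ∃ y, p 0 = (p 1 + p 4 + p 5) * y) (hC : ∃ y, p 4 = (p 2 + p 3 + p 5) * y)
    (hD : ∃ y, p 0 = (p 1 + p 6 + p 7) * y) (hE : ∃ y, p 6 = (p 2 + p 3 + p 7) * y)
    (h1 : ∃ K, K * p 0 = 0 ∧ K * p 1 = 0 ∧ K * p 2 = 0 ∧ p 5 * K * p 5 = p 5)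
    (h2 : ∃ K, K * p 2 = 0 ∧ K * p 3 = 0 ∧ p 1 * K * p 1 = p 1)
    (h3 : ∃ K, K * p 0 = 0 ∧ K * p 1 = 0 ∧ K * p 2 = 0 ∧ p 7 * K * p 7 = p 7)
    (h4 : ∃ K, K * p 5 = 0 ∧ K * p 6 = 0 ∧ K * p 7 = 0 ∧ p 4 * K * p 4 = p 4)
    (h5 : ∃ K, K * p 6 = 0 ∧ K * p 7 = 0 ∧ p 5 * K * p 5 = p 5)
    (h6 : ∃ K, K * p 1 = 0 ∧ p 0 * K * p 0 = p 0) : p 0 = 0 := by
  obtain ⟨a, hA⟩ := hA
  obtain ⟨a', hA'⟩ := hA'
  obtain ⟨K2, h20, h21, h22⟩ := h2
  -- the common part of the argument for the pairs `(4,5)` and `(6,7)`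
  have key : ∀ (u v b c : B), p 0 = (p 1 + u + v) * b → u = (p 2 + p 3 + v) * c →
      (∃ K, K * p 0 = 0 ∧ K * p 1 = 0 ∧ K * p 2 = 0 ∧ v * K * v = v) → p 1 * b = p 1 * a := by
    intro u v b c hb hc hK
    obtain ⟨K, k0, k1, k2, k3⟩ := hK
    have e1 : v * (c * b + b) = p 0 - p 1 * b - p 2 * (c * b) - p 3 * (c * b) := by
      have : u * b = (p 2 + p 3 + v) * (c * b) := by rw [← mul_assoc, ← hc]
      rw [add_mul, add_mul] at hb this
      rw [mul_add, hb, this]
      abel
    have e2 : K * p 3 = 0 := by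
      rw [hA', ← mul_assoc, mul_add, mul_add, k0, k1, k2]; simp
    have e3 : K * (v * (c * b + b)) = 0 := by
      rw [e1, mul_sub, mul_sub, mul_sub, k0, ← mul_assoc K (p 1), k1, ← mul_assoc K (p 2), k2,
        ← mul_assoc K (p 3), e2]
      simp
    have e4 : v * (c * b + b) = 0 := by
      rw [← k3, mul_assoc, mul_assoc, e3, mul_zero]
    have e5 : p 1 * (b - a) = p 2 * (a - c * b) + p 3 * (a - c * b) := by
      rw [e4] at e1
      have e6 : p 0 = p 1 * b + p 2 * (c * b) + p 3 * (c * b) := by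
        rw [eq_comm, sub_sub, sub_sub, sub_eq_zero] at e1
        rw [e1]; abel
      have e7 : p 1 * a + p 2 * a + p 3 * a = p 1 * b + p 2 * (c * b) + p 3 * (c * b) := by
        rw [← e6, hA]; noncomm_ring
      rw [mul_sub, mul_sub, mul_sub, sub_eq_iff_eq_add]
      have e8 : p 1 * b = p 1 * a + p 2 * a + p 3 * a - p 2 * (c * b) - p 3 * (c * b) := by
        rw [e7]; noncomm_ring
      rw [e8]; noncomm_ring
    have e9 : K2 * (p 1 * (b - a)) = 0 := by
      rw [e5, mul_add, ← mul_assoc, h20, ← mul_assoc, h21]; simp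
    have e10 : p 1 * (b - a) = 0 := by
      rw [← h22, mul_assoc, mul_assoc, e9, mul_zero]
    rw [mul_sub, sub_eq_zero] at e10
    exact e10
  obtain ⟨b, hB⟩ := hB
  obtain ⟨c, hC⟩ := hC
  obtain ⟨d, hD⟩ := hD
  obtain ⟨e, hE⟩ := hE
  have k1 := key (p 4) (p 5) b c hB hC h1
  have k2 := key (p 6) (p 7) d e hD hE h3
  have e1 : p 0 = p 1 * a + p 4 * b + p 5 * b := by
    rw [← k1]; rw [hB]; noncomm_ring
  have e2 : p 0 = p 1 * a + p 6 * d + p 7 * d := by
    rw [← k2]; rw [hD]; noncomm_ring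
  have e3 : p 4 * b + p 5 * b = p 6 * d + p 7 * d := by
    have := e1.symm.trans e2
    rw [add_assoc, add_assoc] at this
    exact add_left_cancel this
  have e4 : p 4 * b = 0 := by
    obtain ⟨K, a1, a2, a3, a4⟩ := h4
    have e5 : p 4 * b = p 6 * d + p 7 * d - p 5 * b := eq_sub_of_add_eq e3
    rw [← a4, mul_assoc, mul_assoc, e5, mul_sub, mul_add, ← mul_assoc K, ← mul_assoc K,
      ← mul_assoc K, a1, a2, a3]
    simp
  have e5 : p 5 * b = 0 := by
    obtain ⟨K, a1, a2, a4⟩ := h5
    have e6 : p 5 * b = p 6 * d + p 7 * d := by rw [← e3, e4, zero_add]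
    rw [← a4, mul_assoc, mul_assoc, e6, mul_add, ← mul_assoc K, ← mul_assoc K, a1, a2]
    simp
  obtain ⟨K, a1, a2⟩ := h6
  rw [e4, e5, add_zero, add_zero] at e1
  rw [← a2, mul_assoc, e1, ← mul_assoc K, a1, zero_mul, mul_zero]

end Abstract

/-! ## The Vamos polynomial -/

section Comb

theorem pencil_vamos (a : Fin 8 → ℝ) :
    pencil vamos a (fun _ => 1) = ∑ S ∈ bases, ∏ j ∈ S, (C (a j) - X) := by
  simp [pencil, vamos, map_sum, map_prod]

theorem card_bases {S : Finset (Fin 8)} (h : S ∈ bases) : S.card = 4 := by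
  rw [bases, Finset.mem_sdiff, Finset.mem_powersetCard] at h
  exact h.1.2

/-- indicator of `U` -/
noncomputable def ind (U : Finset (Fin 8)) (j : Fin 8) : ℝ := if j ∈ U then 1 else 0

noncomputable def FF (U : Finset (Fin 8)) : ℝ[X] := ∑ S ∈ bases, ∏ j ∈ S, (C (ind U j) - X)

noncomputable def GG (U : Finset (Fin 8)) (i : Fin 8) : ℝ[X] :=
  ∑ S ∈ bases with i ∈ S, ∏ j ∈ S.erase i, (C (ind U j) - X)

theorem pencil_split (U : Finset (Fin 8)) (i : Fin 8) (hi : i ∉ U) (s : ℝ) :
    pencil vamos (fun j => ind U j + s * ind {i} j) (fun _ => 1) = FF U + C s * GG U i := by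
  rw [pencil_vamos, FF, GG, Finset.mul_sum, Finset.sum_filter, ← Finset.sum_add_distrib]
  refine Finset.sum_congr rfl fun S _ => ?_
  split_ifs with hS
  · rw [← Finset.mul_prod_erase S _ hS, ← Finset.mul_prod_erase S (fun j => C (ind U j) - X) hS]
    have : ∏ x ∈ S.erase i, (C (ind U x + s * ind {i} x) - X) =
        ∏ x ∈ S.erase i, (C (ind U x) - X) := by
      refine Finset.prod_congr rfl fun x hx => ?_
      have hx' : x ≠ i := Finset.ne_of_mem_erase hx
      simp [ind, hx']
    rw [this]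
    simp only [ind, hi, if_false, Finset.mem_singleton, if_true, mul_one, zero_add, map_zero]
    ring
  · rw [add_zero]
    refine Finset.prod_congr rfl fun x hx => ?_
    have hx' : x ≠ i := fun h => hS (h ▸ hx)
    simp [ind, hx']

theorem prod_ind (S U : Finset (Fin 8)) :
    ∏ j ∈ S, ind U j = if S ⊆ U then 1 else 0 := by
  simp only [ind]
  rw [Finset.prod_ite_zero]
  simp [Finset.subset_iff]

theorem FF_coeff_zero {U : Finset (Fin 8)} (hU : U.card < 4) : (FF U).coeff 0 = 0 := by
  rw [Polynomial.coeff_zero_eq_eval_zero, FF, Polynomial.eval_finsetSum]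
  refine Finset.sum_eq_zero fun S hS => ?_
  rw [Polynomial.eval_prod]
  simp only [eval_sub, eval_C, eval_X, sub_zero]
  rw [prod_ind, if_neg]
  intro h
  have := Finset.card_le_card h
  have := card_bases hS
  omega

theorem GG_coeff_zero {U : Finset (Fin 8)} {i : Fin 8} (hU : U.card = 3) (hi : i ∉ U) :
    (GG U i).coeff 0 = if insert i U ∈ bases then 1 else 0 := by
  rw [Polynomial.coeff_zero_eq_eval_zero, GG, Polynomial.eval_finsetSum]
  have h1 : ∀ S ∈ bases.filter (fun S => i ∈ S),
      eval 0 (∏ j ∈ S.erase i, (C (ind U j) - X)) = if insert i U = S then (1 : ℝ) else 0 := by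
    intro S hS
    rw [Finset.mem_filter] at hS
    rw [Polynomial.eval_prod]
    simp only [eval_sub, eval_C, eval_X, sub_zero]
    rw [prod_ind]
    have hcard := card_bases hS.1
    have : (S.erase i ⊆ U) ↔ (insert i U = S) := by
      constructor
      · intro h
        have h2 : S.erase i = U := by
          apply Finset.eq_of_subset_of_card_le h
          rw [Finset.card_erase_of_mem hS.2, hU, hcard]
        rw [← h2, Finset.insert_erase hS.2]
      · intro h
        rw [← h, Finset.erase_insert hi]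
    simp only [this]
  rw [Finset.sum_congr rfl h1, Finset.sum_ite_eq]
  simp [Finset.mem_filter]

theorem exists_basis (U : Finset (Fin 8)) (hU : U.card = 3) : ∃ S ∈ bases, U ⊆ S := by
  revert U; decide +kernel

theorem FF_coeff_one {U : Finset (Fin 8)} (hU : U.card = 3) : (FF U).coeff 1 ≠ 0 := by
  have h1 : (FF U).coeff 1 = eval 0 (derivative (FF U)) := by
    rw [← Polynomial.coeff_zero_eq_eval_zero, Polynomial.coeff_derivative]; simp
  have h2 : eval 0 (derivative (FF U)) = - ∑ S ∈ bases, ∑ i ∈ S, ∏ j ∈ S.erase i, ind U j := by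
    rw [FF, Polynomial.derivative_sum, Polynomial.eval_finsetSum, ← Finset.sum_neg_distrib]
    refine Finset.sum_congr rfl fun S _ => ?_
    rw [Polynomial.derivative_prod_finset, Polynomial.eval_finsetSum, ← Finset.sum_neg_distrib]
    refine Finset.sum_congr rfl fun i _ => ?_
    rw [eval_mul, Polynomial.eval_prod]
    simp
  rw [h1, h2, neg_ne_zero]
  apply ne_of_gt
  obtain ⟨S, hS, hUS⟩ := exists_basis U hU
  have hnn : ∀ S : Finset (Fin 8), ∀ i, 0 ≤ ∏ j ∈ S.erase i, ind U j := by
    intro S i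
    rw [prod_ind]; split_ifs <;> norm_num
  refine lt_of_lt_of_le ?_ (Finset.single_le_sum
    (f := fun S => ∑ i ∈ S, ∏ j ∈ S.erase i, ind U j) (fun T _ => Finset.sum_nonneg fun i _ => hnn T i) hS)
  have hcard := card_bases hS
  have : ∃ i ∈ S, i ∉ U := by
    by_contra hcon
    push Not at hcon
    have := Finset.card_le_card (show S ⊆ U from hcon)
    omega
  obtain ⟨i, hiS, hiU⟩ := this
  refine lt_of_lt_of_le ?_ (Finset.single_le_sum
    (f := fun i => ∏ j ∈ S.erase i, ind U j) (fun i _ => hnn S i) hiS)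
  have h3 : S.erase i = U := by
    symm
    apply Finset.eq_of_subset_of_card_le
    · intro x hx
      exact Finset.mem_erase.2 ⟨fun h => hiU (h ▸ hx), hUS hx⟩
    · rw [Finset.card_erase_of_mem hiS, hU, hcard]
  simp only [prod_ind, h3, Finset.Subset.refl, if_true]
  norm_num

end Comb

section Core

variable {B : Type*} [Ring B] [StarRing B] [Algebra ℝ B] [StarModule ℝ B]

theorem card_filter_pos (i : Fin 8) : 0 < (bases.filter (fun S => i ∈ S)).card := by
  revert i; decide +kernel

theorem pencil_single (i : Fin 8) : pencil vamos (fun j => ind {i} j) (fun _ => 1) =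
    bases.card • X ^ 4 - (bases.filter (fun S => i ∈ S)).card • X ^ 3 := by
  have h2 : ∀ S ∈ bases, ∏ j ∈ S, (C (ind {i} j) - X : ℝ[X]) =
      X ^ 4 - if i ∈ S then X ^ 3 else 0 := by
    intro S hS
    have hcard := card_bases hS
    split_ifs with hiS
    · rw [← Finset.mul_prod_erase S _ hiS]
      have : ∏ x ∈ S.erase i, (C (ind {i} x) - X : ℝ[X]) = ∏ x ∈ S.erase i, (- X) := by
        refine Finset.prod_congr rfl fun x hx => ?_
        have hx' : x ≠ i := Finset.ne_of_mem_erase hx
        simp [ind, hx']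
      rw [this, Finset.prod_const, Finset.card_erase_of_mem hiS, hcard]
      simp [ind]
      ring
    · have : ∏ x ∈ S, (C (ind {i} x) - X : ℝ[X]) = ∏ x ∈ S, (- X) := by
        refine Finset.prod_congr rfl fun x hx => ?_
        have hx' : x ≠ i := fun h => hiS (h ▸ hx)
        simp [ind, hx']
      rw [this, Finset.prod_const, hcard]
      ring
  rw [pencil_vamos, Finset.sum_congr rfl h2, Finset.sum_sub_distrib, Finset.sum_const,
    ← Finset.sum_filter, Finset.sum_const]

theorem sum_ind {B : Type*} [Ring B] [Algebra ℝ B] (m : Fin 8 → B) (i : Fin 8) :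
    ∑ j, ind {i} j • m j = m i := by
  simp [ind]

theorem aeval_comm (N : B) (f : ℝ[X]) : aeval N f * N = N * aeval N f := by
  have h7 : aeval N (f * X) = aeval N (X * f) := by rw [mul_comm]
  rwa [map_mul, map_mul, aeval_X] at h7

theorem rel_split (m : Fin 8 → B)
    (hrel : ∀ a : Fin 8 → ℝ, aeval (∑ i, a i • m i) (pencil vamos a (fun _ => 1)) = 0)
    (U : Finset (Fin 8)) (i : Fin 8) (hU : U.card = 3) (hi : i ∉ U) (s : ℝ) :
    ((∑ j ∈ U, m j) + s • m i) * (aeval ((∑ j ∈ U, m j) + s • m i) (FF U).divX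
      + s • aeval ((∑ j ∈ U, m j) + s • m i) (GG U i).divX)
      + (s * (if insert i U ∈ bases then 1 else 0)) • (1 : B) = 0 := by
  have h := hrel (fun j => ind U j + s * ind {i} j)
  have h1 : ∑ j, (ind U j + s * ind {i} j) • m j = (∑ j ∈ U, m j) + s • m i := by
    simp only [add_smul, Finset.sum_add_distrib, ind, Finset.mem_singleton, ite_smul, one_smul,
      zero_smul, mul_ite, mul_one, mul_zero, Finset.sum_ite_mem, Finset.univ_inter,
      Finset.sum_ite_eq', Finset.mem_univ, if_true]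
  rw [h1, pencil_split U i hi s] at h
  set N := (∑ j ∈ U, m j) + s • m i with hN
  rw [← Polynomial.divX_mul_X_add (FF U), FF_coeff_zero (by omega),
    ← Polynomial.divX_mul_X_add (GG U i), GG_coeff_zero hU hi, map_zero, add_zero] at h
  rw [map_add, map_mul, map_mul, map_add, map_mul, aeval_X, aeval_C, aeval_C, aeval_comm,
    aeval_comm] at h
  rw [← h, mul_add, Algebra.smul_def (s * _), mul_one, map_mul, ← Algebra.smul_def, mul_smul_comm,
    ← Algebra.smul_def, smul_add, add_assoc]

set_option maxRecDepth 8000 in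
theorem core (hp : Proper B) (m : Fin 8 → B) (hsa : ∀ i, star (m i) = m i)
    (hrel : ∀ a : Fin 8 → ℝ, aeval (∑ i, a i • m i) (pencil vamos a (fun _ => 1)) = 0) :
    (1 : B) = 0 := by
  -- each generator is a positive multiple of its square
  have hsq : ∀ i, ∃ c : ℝ, 0 < c ∧ m i = c • (m i * m i) := by
    intro i
    have h := hrel (fun j => ind {i} j)
    have h1 : ∑ j, ind {i} j • m j = m i := by
      simp [ind]
    rw [h1, pencil_single] at h
    set n : ℕ := bases.card with hn
    set k : ℕ := (bases.filter (fun S => i ∈ S)).card with hk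
    have hnpos : 0 < n := by rw [hn]; decide +kernel
    have hkpos : 0 < k := by
      rw [hk]; exact card_filter_pos i
    rw [map_sub, map_nsmul, map_nsmul, map_pow, map_pow, aeval_X] at h
    set y : B := n • (m i ^ 2) - k • m i with hy
    have hys : star y = y := by
      rw [hy, star_sub, star_nsmul, star_nsmul, star_pow, hsa]
    have e1 : y * m i ^ 2 = 0 := by
      rw [hy, sub_mul, smul_mul_assoc, smul_mul_assoc, ← pow_add, ← pow_succ', h]
    have e2 : y * m i = m i * y := by
      rw [hy, sub_mul, mul_sub, smul_mul_assoc, smul_mul_assoc, mul_smul_comm, mul_smul_comm,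
        ← pow_succ, ← pow_succ']
    have e3 : y * y * y * m i = 0 := by
      have : y * m i = m i ^ 2 * (n • m i - k • 1) := by
        rw [hy, sub_mul, smul_mul_assoc, smul_mul_assoc, mul_sub, mul_smul_comm, mul_smul_comm,
          mul_one, ← pow_succ, ← sq]
      rw [mul_assoc (y * y), this, mul_assoc y y, ← mul_assoc y (m i ^ 2), e1, zero_mul, mul_zero]
    have e4 : y ^ 4 = 0 := by
      have : y = m i * (n • m i - k • 1) := by
        rw [hy, mul_sub, mul_smul_comm, mul_smul_comm, mul_one, sq]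
      calc y ^ 4 = y * y * y * y := by noncomm_ring
        _ = y * y * y * (m i * (n • m i - k • 1)) := by rw [← this]
        _ = 0 := by rw [← mul_assoc, e3, zero_mul]
    have e5 : y = 0 := hp.pow4 hys e4
    have e6 : (k : ℝ) • m i = (n : ℝ) • (m i * m i) := by
      rw [hy, sub_eq_zero, sq] at e5
      rw [Nat.cast_smul_eq_nsmul, Nat.cast_smul_eq_nsmul, e5]
    refine ⟨(k : ℝ)⁻¹ * n, by positivity, ?_⟩
    rw [← smul_smul, ← e6, smul_smul, inv_mul_cancel₀ (by positivity), one_smul]
  choose c hc hsq using hsq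
  have hcirc : ∀ (U : Finset (Fin 8)) (i : Fin 8), U.card = 3 → i ∉ U → insert i U ∉ bases →
      ∃ y, m i = (∑ j ∈ U, m j) * y := by
    intro U i hU hi hb
    apply circ hp m hsa c hc hsq U i (FF U).divX (GG U i).divX
    · rw [Polynomial.coeff_divX]; exact FF_coeff_one hU
    · intro s
      have := rel_split m hrel U i hU hi s
      simpa [hb] using this
  have hind : ∀ (U : Finset (Fin 8)) (i : Fin 8), U.card = 3 → i ∉ U → insert i U ∈ bases →
      ∃ K0 K1 : B, (∀ j ∈ U, K0 * m j = 0) ∧ m i * K0 * m i = m i ∧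
        (∑ j ∈ U, m j) * K1 + m i * K0 = 1 := by
    intro U i hU hi hb
    apply indep hp m hsa c hc hsq U i (FF U).divX (GG U i).divX
    intro s
    have := rel_split m hrel U i hU hi s
    simpa [hb] using this
  have hcirc3 : ∀ a b c i : Fin 8, ({a, b, c} : Finset (Fin 8)).card = 3 →
      i ∉ ({a, b, c} : Finset (Fin 8)) → insert i ({a, b, c} : Finset (Fin 8)) ∉ bases →
      ∃ y, m i = (m a + m b + m c) * y := by
    intro a b c i h1 h2 h3
    obtain ⟨y, hy⟩ := hcirc {a, b, c} i h1 h2 h3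
    have hab : a ≠ b := by rintro rfl; simp at h1; have := Finset.card_le_two (a := a) (b := c); omega
    have hac : a ≠ c := by rintro rfl; simp at h1; have := Finset.card_le_two (a := b) (b := a); omega
    have hbc : b ≠ c := by rintro rfl; simp at h1; have := Finset.card_le_two (a := a) (b := b); omega
    refine ⟨y, ?_⟩
    rw [hy, Finset.sum_insert (by simp [hab, hac]), Finset.sum_insert (by simpa using hbc),
      Finset.sum_singleton, add_assoc]
  have hind3 : ∀ a b c i : Fin 8, ({a, b, c} : Finset (Fin 8)).card = 3 →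
      i ∉ ({a, b, c} : Finset (Fin 8)) → insert i ({a, b, c} : Finset (Fin 8)) ∈ bases →
      ∃ K, K * m a = 0 ∧ K * m b = 0 ∧ K * m c = 0 ∧ m i * K * m i = m i := by
    intro a b c i h1 h2 h3
    obtain ⟨K0, K1, k1, k2, -⟩ := hind {a, b, c} i h1 h2 h3
    exact ⟨K0, k1 a (by simp), k1 b (by simp), k1 c (by simp), k2⟩
  have hmain : ∀ σ : Fin 8 → Fin 8,
      (∀ t ∈ ([(1, 2, 3, 0), (0, 1, 2, 3), (1, 4, 5, 0), (2, 3, 5, 4),
        (1, 6, 7, 0), (2, 3, 7, 6)] : List (Fin 8 × Fin 8 × Fin 8 × Fin 8)),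
        ({σ t.1, σ t.2.1, σ t.2.2.1} : Finset (Fin 8)).card = 3 ∧
        σ t.2.2.2 ∉ ({σ t.1, σ t.2.1, σ t.2.2.1} : Finset (Fin 8)) ∧
        insert (σ t.2.2.2) ({σ t.1, σ t.2.1, σ t.2.2.1} : Finset (Fin 8)) ∉ bases) →
      (∀ t ∈ ([(0, 1, 2, 5), (2, 3, 4, 1), (0, 1, 2, 7), (5, 6, 7, 4),
        (6, 7, 4, 5), (1, 2, 4, 0)] : List (Fin 8 × Fin 8 × Fin 8 × Fin 8)),
        ({σ t.1, σ t.2.1, σ t.2.2.1} : Finset (Fin 8)).card = 3 ∧
        σ t.2.2.2 ∉ ({σ t.1, σ t.2.1, σ t.2.2.1} : Finset (Fin 8)) ∧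
        insert (σ t.2.2.2) ({σ t.1, σ t.2.1, σ t.2.2.1} : Finset (Fin 8)) ∈ bases) →
      m (σ 0) = 0 := by
    intro σ hσ hτ
    have hc' : ∀ a b c i : Fin 8, (a, b, c, i) ∈ ([(1, 2, 3, 0), (0, 1, 2, 3), (1, 4, 5, 0),
        (2, 3, 5, 4), (1, 6, 7, 0), (2, 3, 7, 6)] : List (Fin 8 × Fin 8 × Fin 8 × Fin 8)) →
        ∃ y, (m ∘ σ) i = ((m ∘ σ) a + (m ∘ σ) b + (m ∘ σ) c) * y := by
      intro a b c i hm
      obtain ⟨h1, h2, h3⟩ := hσ (a, b, c, i) hm
      exact hcirc3 _ _ _ _ h1 h2 h3
    have hi' : ∀ a b c i : Fin 8, (a, b, c, i) ∈ ([(0, 1, 2, 5), (2, 3, 4, 1), (0, 1, 2, 7),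
        (5, 6, 7, 4), (6, 7, 4, 5), (1, 2, 4, 0)] : List (Fin 8 × Fin 8 × Fin 8 × Fin 8)) →
        ∃ K, K * (m ∘ σ) a = 0 ∧ K * (m ∘ σ) b = 0 ∧ K * (m ∘ σ) c = 0 ∧
          (m ∘ σ) i * K * (m ∘ σ) i = (m ∘ σ) i := by
      intro a b c i hm
      obtain ⟨h1, h2, h3⟩ := hτ (a, b, c, i) hm
      exact hind3 _ _ _ _ h1 h2 h3
    apply ingleton (m ∘ σ) (hc' 1 2 3 0 (by simp)) (hc' 0 1 2 3 (by simp)) (hc' 1 4 5 0 (by simp))
      (hc' 2 3 5 4 (by simp)) (hc' 1 6 7 0 (by simp)) (hc' 2 3 7 6 (by simp))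
      (hi' 0 1 2 5 (by simp))
    · obtain ⟨K, a1, a2, a3, a4⟩ := hi' 2 3 4 1 (by simp)
      exact ⟨K, a1, a2, a4⟩
    · exact hi' 0 1 2 7 (by simp)
    · exact hi' 5 6 7 4 (by simp)
    · obtain ⟨K, a1, a2, a3, a4⟩ := hi' 6 7 4 5 (by simp)
      exact ⟨K, a1, a2, a4⟩
    · obtain ⟨K, a1, a2, a3, a4⟩ := hi' 1 2 4 0 (by simp)
      exact ⟨K, a1, a4⟩
  have m0 : m 0 = 0 := hmain id (by decide +kernel) (by decide +kernel)
  have m1 : m 1 = 0 := hmain (Equiv.swap 0 1) (by decide +kernel) (by decide +kernel)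
  have m2 : m 2 = 0 := hmain ![2, 3, 0, 1, 4, 5, 6, 7] (by decide +kernel) (by decide +kernel)
  obtain ⟨K0, K1, -, k1, k2⟩ := hind {0, 1, 2} 4 (by decide) (by decide) (by decide +kernel)
  obtain ⟨L0, L1, -, l1, l2⟩ := hind {0, 1, 2} 5 (by decide) (by decide) (by decide +kernel)
  obtain ⟨J0, J1, j0, j1, -⟩ := hind {5, 6, 7} 4 (by decide) (by decide) (by decide +kernel)
  have hz : ∑ j ∈ ({0, 1, 2} : Finset (Fin 8)), m j = 0 := by
    rw [Finset.sum_insert (by decide), Finset.sum_insert (by decide), Finset.sum_singleton, m0, m1,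
      m2]
    simp
  rw [hz, zero_mul, zero_add] at k2 l2
  have hJ : J0 = 0 := by
    rw [← mul_one J0, ← l2, ← mul_assoc, j0 5 (by simp), zero_mul]
  have h4 : m 4 = 0 := by
    rw [← j1, hJ, mul_zero, zero_mul]
  rw [← k2, h4, zero_mul]

end Core

/-! ## The radical -/

section Radical

variable {A : Type*} [Ring A] [StarRing A] [Algebra ℝ A] [StarModule ℝ A]

/-- the additive monoid generated by hermitian squares -/
def SS (A : Type*) [Ring A] [StarRing A] : AddSubmonoid A :=
  AddSubmonoid.closure (Set.range fun b : A => star b * b)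

theorem SS_sq (b : A) : star b * b ∈ SS A := AddSubmonoid.subset_closure ⟨b, rfl⟩

theorem SS_conj {x : A} (hx : x ∈ SS A) (c : A) : star c * x * c ∈ SS A := by
  induction hx using AddSubmonoid.closure_induction with
  | mem y hy =>
    obtain ⟨b, rfl⟩ := hy
    have : star c * (star b * b) * c = star (b * c) * (b * c) := by
      rw [star_mul]; noncomm_ring
    rw [this]; exact SS_sq _
  | zero => simp
  | add y z _ _ h1 h2 => rw [mul_add, add_mul]; exact add_mem h1 h2

theorem SS_smul {x : A} (hx : x ∈ SS A) {r : ℝ} (hr : 0 ≤ r) : r • x ∈ SS A := by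
  have := SS_conj hx (√r • (1 : A))
  rw [star_smul, star_one, smul_one_mul, mul_smul_one, smul_smul] at this
  simpa [Real.mul_self_sqrt hr] using this

theorem SS_one {r : ℝ} (hr : 0 ≤ r) : r • (1 : A) ∈ SS A := by
  have h : star (1 : A) * 1 ∈ SS A := SS_sq 1
  rw [star_one, mul_one] at h
  exact SS_smul h hr

/-- boundedness -/
def Bdd (a : A) : Prop := ∃ r : ℝ, 0 ≤ r ∧ r • (1 : A) - star a * a ∈ SS A

theorem Bdd.mul {a b : A} (ha : Bdd a) (hb : Bdd b) : Bdd (a * b) := by
  obtain ⟨r, hr, h1⟩ := ha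
  obtain ⟨s, hs, h2⟩ := hb
  refine ⟨r * s, mul_nonneg hr hs, ?_⟩
  have e : (r * s) • (1 : A) - star (a * b) * (a * b) =
      star b * (r • (1 : A) - star a * a) * b + r • (s • (1 : A) - star b * b) := by
    rw [star_mul, mul_sub, sub_mul, mul_smul_comm, mul_one, smul_mul_assoc, smul_sub, smul_smul]
    noncomm_ring
  rw [e]
  exact add_mem (SS_conj h1 b) (SS_smul h2 hr)

theorem Bdd.add {a b : A} (ha : Bdd a) (hb : Bdd b) : Bdd (a + b) := by
  obtain ⟨r, hr, h1⟩ := ha
  obtain ⟨s, hs, h2⟩ := hb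
  refine ⟨2 * r + 2 * s, by positivity, ?_⟩
  have e : (2 * r + 2 * s) • (1 : A) - star (a + b) * (a + b) =
      (2 : ℝ) • (r • (1 : A) - star a * a) + (2 : ℝ) • (s • (1 : A) - star b * b)
        + star (a - b) * (a - b) := by
    rw [star_add, star_sub, add_smul, smul_sub, smul_sub, smul_smul, smul_smul, two_smul ℝ (star a * a),
      two_smul ℝ (star b * b)]
    noncomm_ring
  rw [e]
  exact add_mem (add_mem (SS_smul h1 (by norm_num)) (SS_smul h2 (by norm_num))) (SS_sq _)

/-- the radical -/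
def InRad (a : A) : Prop := ∀ ε : ℝ, 0 < ε → ε • (1 : A) - star a * a ∈ SS A

theorem InRad.le {h : A} (hh : star h = h) (H : InRad h) {ε : ℝ} (hε : 0 < ε) :
    ε • (1 : A) - h ∈ SS A := by
  have h1 := H (ε ^ 2) (by positivity)
  rw [hh] at h1
  have e : ε • (1 : A) - h = (2 * ε)⁻¹ • (star (ε • (1 : A) - h) * (ε • (1 : A) - h)
      + (ε ^ 2 • (1 : A) - h * h)) := by
    rw [star_sub, star_smul, star_one, hh]
    simp only [star_trivial]
    have e2 : (ε • (1 : A) - h) * (ε • (1 : A) - h) + (ε ^ 2 • (1 : A) - h * h)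
        = (2 * ε) • (ε • (1 : A) - h) := by
      simp only [sub_mul, mul_sub, smul_mul_assoc, mul_smul_comm, one_mul, mul_one]
      module
    rw [e2, smul_smul, inv_mul_cancel₀ (by positivity), one_smul]
  rw [e]
  exact SS_smul (add_mem (SS_sq _) h1) (by positivity)

theorem InRad.of_sq_sum {s : Finset (Fin 8)} {x : Fin 8 → A}
    (H : InRad (∑ i ∈ s, star (x i) * x i)) : ∀ i ∈ s, InRad (x i) := by
  intro i hi ε hε
  have hs : star (∑ i ∈ s, star (x i) * x i) = ∑ i ∈ s, star (x i) * x i := by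
    rw [star_sum]; exact Finset.sum_congr rfl fun j _ => by rw [star_mul, star_star]
  have h1 := InRad.le hs H hε
  have e : ε • (1 : A) - star (x i) * x i = (ε • (1 : A) - ∑ i ∈ s, star (x i) * x i)
      + ∑ j ∈ s.erase i, star (x j) * x j := by
    rw [← Finset.add_sum_erase s _ hi]; abel
  rw [e]
  exact add_mem h1 (sum_mem fun j _ => SS_sq _)

theorem InRad.zero : InRad (0 : A) := by
  intro ε hε
  rw [mul_zero, sub_zero]; exact SS_one hε.le

theorem InRad.add {a b : A} (ha : InRad a) (hb : InRad b) : InRad (a + b) := by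
  intro ε hε
  have h1 := ha (ε / 4) (by positivity)
  have h2 := hb (ε / 4) (by positivity)
  have e : ε • (1 : A) - star (a + b) * (a + b) =
      (2 : ℝ) • ((ε / 4) • (1 : A) - star a * a) + (2 : ℝ) • ((ε / 4) • (1 : A) - star b * b)
        + star (a - b) * (a - b) := by
    have : ε • (1 : A) = (2 * (ε / 4)) • (1 : A) + (2 * (ε / 4)) • (1 : A) := by
      rw [← add_smul]; congr 1; ring
    rw [star_add, star_sub, this, smul_sub, smul_sub, smul_smul, two_smul ℝ (star a * a),
      two_smul ℝ (star b * b)]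
    noncomm_ring
  rw [e]
  exact add_mem (add_mem (SS_smul h1 (by norm_num)) (SS_smul h2 (by norm_num))) (SS_sq _)

theorem InRad.neg {a : A} (ha : InRad a) : InRad (-a) := by
  intro ε hε
  rw [star_neg, neg_mul_neg]; exact ha ε hε

theorem InRad.mul_left {a : A} (ha : InRad a) {b : A} (hb : Bdd b) : InRad (b * a) := by
  intro ε hε
  obtain ⟨r, hr, h1⟩ := hb
  have h2 := ha (ε / (r + 1)) (by positivity)
  have e : ε • (1 : A) - star (b * a) * (b * a) =
      star a * (r • (1 : A) - star b * b) * a + star a * 1 * a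
      + (r + 1) • ((ε / (r + 1)) • (1 : A) - star a * a) := by
    rw [star_mul, smul_sub, smul_smul, mul_div_cancel₀ _ (by positivity : (r + 1) ≠ 0), mul_sub,
      sub_mul, mul_smul_comm, mul_one, smul_mul_assoc, add_smul, one_smul]
    noncomm_ring
  rw [e]
  have h3 : (1 : A) ∈ SS A := by simpa using SS_sq (1 : A)
  exact add_mem (add_mem (SS_conj h1 a) (SS_conj h3 a)) (SS_smul h2 (by positivity))

theorem InRad.mul_right {a : A} (ha : InRad a) {b : A} (hb : Bdd b) : InRad (a * b) := by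
  intro ε hε
  obtain ⟨r, hr, h1⟩ := hb
  have h2 := ha (ε / (r + 1)) (by positivity)
  have hpos : 0 < r + 1 := by positivity
  have e : ε • (1 : A) - star (a * b) * (a * b) =
      star b * ((ε / (r + 1)) • (1 : A) - star a * a) * b
      + (ε / (r + 1)) • (r • (1 : A) - star b * b) + (ε / (r + 1)) • (1 : A) := by
    have : ε • (1 : A) = (ε / (r + 1)) • (r • (1 : A)) + (ε / (r + 1)) • (1 : A) := by
      rw [smul_smul, ← add_smul]; congr 1; field_simp
    rw [this, star_mul, smul_sub, mul_sub, sub_mul, mul_smul_comm, mul_one, smul_mul_assoc]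
    noncomm_ring
  rw [e]
  exact add_mem (add_mem (SS_conj h2 b) (SS_smul h1 (by positivity))) (SS_one (by positivity))

theorem InRad.star_mem {a : A} (ha : InRad a) (hb : ∀ a : A, Bdd a) : InRad (star a) := by
  have h1 : InRad (a * star a) := ha.mul_right (hb _)
  have := InRad.of_sq_sum (s := {0}) (x := fun _ => star a) (by simpa using h1) 0 (by simp)
  exact this

/-- The radical as a two-sided ideal. -/
def rad (hb : ∀ a : A, Bdd a) : TwoSidedIdeal A :=
  TwoSidedIdeal.mk' {a | InRad a} InRad.zero (fun h1 h2 => h1.add h2) (fun h => h.neg)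
    (fun h => h.mul_left (hb _)) (fun h => h.mul_right (hb _))

theorem mem_rad (hb : ∀ a : A, Bdd a) (a : A) : a ∈ rad hb ↔ InRad a := by
  rw [rad, TwoSidedIdeal.mem_mk']; rfl

theorem rad_star (hb : ∀ a : A, Bdd a) : ∀ x ∈ rad hb, star x ∈ rad hb := by
  intro x hx
  rw [mem_rad] at *
  exact hx.star_mem hb

theorem proper_quot (hb : ∀ a : A, Bdd a) :
    @Proper (rad hb).ringCon.Quotient _ (quotStar (rad hb) (rad_star hb)) := by
  letI := quotStar (rad hb) (rad_star hb)
  intro s x hx i hi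
  have hsurj : ∀ i, ∃ a : A, (a : (rad hb).ringCon.Quotient) = x i := fun i =>
    (rad hb).ringCon.mk'_surjective (x i)
  choose y hy using hsurj
  have h1 : ((∑ i ∈ s, star (y i) * y i : A) : (rad hb).ringCon.Quotient) = 0 := by
    rw [← hx]
    have : ((∑ i ∈ s, star (y i) * y i : A) : (rad hb).ringCon.Quotient) =
      (rad hb).ringCon.mk' (∑ i ∈ s, star (y i) * y i) := rfl
    rw [this, map_sum]
    refine Finset.sum_congr rfl fun j _ => ?_
    rw [map_mul, ← hy j]
    rfl
  have h2 : InRad (∑ i ∈ s, star (y i) * y i) := by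
    rw [← mem_rad hb, TwoSidedIdeal.mem_iff]
    exact ((rad hb).ringCon.eq).1 h1
  have h3 := InRad.of_sq_sum h2 i hi
  rw [← hy i]
  rw [← mem_rad hb, TwoSidedIdeal.mem_iff] at h3
  exact ((rad hb).ringCon.eq).2 h3

theorem neg_one_mem_of_one (hb : ∀ a : A, Bdd a) (h : (1 : (rad hb).ringCon.Quotient) = 0) :
    (-1 : A) ∈ SS A := by
  have h1 : InRad (1 : A) := by
    rw [← mem_rad hb, TwoSidedIdeal.mem_iff]
    exact ((rad hb).ringCon.eq).1 h
  have h2 := h1 (1 / 2) (by norm_num)
  have h3 := SS_smul h2 (r := 2) (by norm_num)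
  have e : (2 : ℝ) • ((1 / 2 : ℝ) • (1 : A) - star 1 * 1) = -1 := by
    rw [smul_sub, smul_smul, star_one, mul_one]
    norm_num
    rw [two_smul]; abel
  rwa [e] at h3

end Radical

section Free

theorem SS_subset {A : Type*} [Ring A] [StarRing A] {x : A} (hx : x ∈ SS A) : x ∈ SumSq A := by
  induction hx using AddSubmonoid.closure_induction with
  | mem y hy =>
    obtain ⟨b, rfl⟩ := hy
    exact ⟨1, fun _ => b, le_rfl, by simp⟩
  | zero => exact ⟨1, fun _ => 0, le_rfl, by simp⟩
  | add y z _ _ h1 h2 =>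
    obtain ⟨m, b, hm, rfl⟩ := h1
    obtain ⟨k, c, hk, rfl⟩ := h2
    refine ⟨m + k, Fin.append b c, by omega, ?_⟩
    rw [Fin.sum_univ_add]
    simp

/-- the quotient map, as a real algebra homomorphism -/
noncomputable def mkA {n : ℕ} (h : MvPolynomial (Fin n) ℝ) (e : Fin n → ℝ) :
    FreeStar n →ₐ[ℂ] CliffordAlg h e := (idealJ h e).ringCon.mkₐ ℂ

theorem mkA_star {n : ℕ} (h : MvPolynomial (Fin n) ℝ) (e : Fin n → ℝ) (x : FreeStar n) :
    mkA h e (star x) = star (mkA h e x) := rfl

instance {n : ℕ} (h : MvPolynomial (Fin n) ℝ) (e : Fin n → ℝ) :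
    StarModule ℂ (CliffordAlg h e) where
  star_smul c x := by
    obtain ⟨y, rfl⟩ := (idealJ h e).ringCon.mk'_surjective x
    show star (c • mkA h e y) = star c • star (mkA h e y)
    rw [← map_smul, ← mkA_star, star_smul, map_smul, mkA_star]

instance {n : ℕ} (h : MvPolynomial (Fin n) ℝ) (e : Fin n → ℝ) :
    StarModule ℝ (CliffordAlg h e) where
  star_smul c x := by
    obtain ⟨y, rfl⟩ := (idealJ h e).ringCon.mk'_surjective x
    have h1 : c • ((idealJ h e).ringCon.mk' y) = (idealJ h e).ringCon.mk' (c • y) := rfl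
    have h2 : ∀ y : FreeStar n, star ((idealJ h e).ringCon.mk' y) =
      (idealJ h e).ringCon.mk' (star y) := fun _ => rfl
    rw [h1, h2, star_smul, h2]
    rfl

theorem bdd_of_rel {A : Type*} [Ring A] [StarRing A] [Algebra ℝ A] [StarModule ℝ A] {t : A}
    (ht : star t = t) {n k : ℝ} (hn : 0 < n) (hk : 0 < k) (h : n • t ^ 4 = k • t ^ 3) :
    Bdd t := by
  set u : A := (n / k) • t with hu
  have hus : star u = u := by rw [hu, star_smul, ht]; simp
  have h4 : u ^ 4 = u ^ 3 := by
    rw [hu, _root_.smul_pow, _root_.smul_pow]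
    have : t ^ 4 = (k / n) • t ^ 3 := by
      rw [div_eq_inv_mul, ← smul_smul, ← h, smul_smul, inv_mul_cancel₀ hn.ne', one_smul]
    rw [this, smul_smul]
    congr 1
    field_simp
  set w : A := 1 - (1 / 2 : ℝ) • (u ^ 2 + u ^ 3) with hw
  have hws : star w = w := by
    rw [hw, star_sub, star_smul, star_add, star_pow, star_pow, hus, star_one]; simp
  have h5 : u ^ 5 = u ^ 3 := by
    have : u ^ 5 = u ^ 4 * u := by noncomm_ring
    rw [this, h4, ← pow_succ, h4]
  have h6 : u ^ 6 = u ^ 3 := by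
    have : u ^ 6 = u ^ 5 * u := by noncomm_ring
    rw [this, h5, ← pow_succ, h4]
  have hw2 : w * w = 1 - u ^ 2 := by
    have e1 : (u ^ 2 + u ^ 3) * (u ^ 2 + u ^ 3) = (4 : ℝ) • u ^ 3 := by
      have : (u ^ 2 + u ^ 3) * (u ^ 2 + u ^ 3) = u ^ 4 + u ^ 5 + u ^ 5 + u ^ 6 := by noncomm_ring
      rw [this, h4, h5, h6]; module
    rw [hw, sub_mul, mul_sub, mul_sub, smul_mul_smul_comm, e1, mul_one, one_mul, mul_one]
    module
  refine ⟨(k / n) ^ 2, by positivity, ?_⟩
  have e : (k / n) ^ 2 • (1 : A) - star t * t = (k / n) ^ 2 • (star w * w) := by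
    rw [hws, hw2, smul_sub, ht, hu, _root_.smul_pow, smul_smul, ← mul_pow, div_mul_div_comm, mul_comm k n,
      div_self (by positivity), one_pow, one_smul, sq t]
  rw [e]
  exact SS_smul (SS_sq _) (by positivity)

theorem bdd_of_rel_nat {A : Type*} [Ring A] [StarRing A] [Algebra ℝ A] [StarModule ℝ A] {t : A}
    (ht : star t = t) {n k : ℕ} (hn : 0 < n) (hk : 0 < k) (h : n • t ^ 4 = k • t ^ 3) :
    Bdd t := by
  apply bdd_of_rel ht (n := (n : ℝ)) (k := (k : ℝ)) (by exact_mod_cast hn) (by exact_mod_cast hk)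
  rw [Nat.cast_smul_eq_nsmul, Nat.cast_smul_eq_nsmul]; exact h

end Free

section Final

theorem relA (a : Fin 8 → ℝ) : aeval (∑ i, a i • mkA vamos (fun _ => 1) (gen i))
    (pencil vamos a (fun _ => 1)) = 0 := by
  let φ : FreeStar 8 →ₐ[ℝ] CliffordAlg vamos (fun _ => 1) := (idealJ vamos (fun _ => 1)).ringCon.mkₐ ℝ
  have h1 : ∑ i, a i • mkA vamos (fun _ => 1) (gen i) = φ (lin a) := by
    rw [lin, map_sum]
    refine Finset.sum_congr rfl fun i _ => ?_
    rw [map_smul]; rfl
  rw [h1, Polynomial.aeval_algHom_apply]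
  have h2 : aeval (lin a) (pencil vamos a (fun _ => 1)) ∈ idealJ vamos (fun _ => 1) :=
    TwoSidedIdeal.subset_span (Or.inl ⟨a, rfl⟩)
  exact ((idealJ vamos (fun _ => 1)).ringCon.eq).2 h2

/-- all elements of the Vamos Clifford algebra are bounded -/
theorem bdd_all (x : CliffordAlg vamos (fun _ => 1)) : Bdd x := by
  obtain ⟨y, rfl⟩ := (idealJ vamos (fun _ => 1)).ringCon.mk'_surjective x
  show Bdd (mkA vamos (fun _ => 1) y)
  have hscal : ∀ c : ℂ, Bdd (mkA vamos (fun _ => 1) (algebraMap ℂ (FreeStar 8) c)) := by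
    intro c
    refine ⟨Complex.normSq c, Complex.normSq_nonneg c, ?_⟩
    rw [← mkA_star, star_algMap, ← map_mul, ← map_mul, ← Complex.normSq_eq_conj_mul_self]
    have : mkA vamos (fun _ => 1) (algebraMap ℂ (FreeStar 8) (Complex.normSq c : ℂ)) =
        Complex.normSq c • (1 : CliffordAlg vamos (fun _ => 1)) := by
      rw [AlgHom.commutes, Algebra.algebraMap_eq_smul_one, Complex.coe_smul]
      rfl
    rw [this, sub_self]
    exact zero_mem _
  have hgen : ∀ i : Fin 8, Bdd (mkA vamos (fun _ => 1) (gen i)) := by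
    intro i
    have hst : star (mkA vamos (fun _ => 1) (gen i)) = mkA vamos (fun _ => 1) (gen i) := by
      rw [← mkA_star, star_gen]
    have hrel := relA (fun j => ind {i} j)
    have h1 : ∑ j, ind {i} j • mkA vamos (fun _ => 1) (gen j) = mkA vamos (fun _ => 1) (gen i) :=
      sum_ind _ i
    rw [h1, pencil_single, map_sub, map_nsmul, map_nsmul, map_pow, map_pow, aeval_X,
      sub_eq_zero] at hrel
    exact bdd_of_rel_nat hst (by decide +kernel : 0 < bases.card) (card_filter_pos i) hrel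
  refine FreeAlgebra.induction (R := ℂ) (X := Fin 8)
    (motive := fun y => Bdd (mkA vamos (fun _ => 1) (show FreeStar 8 from y))) hscal hgen ?_ ?_ y
  · intro a b ha hb
    have : mkA vamos (fun _ => 1) (show FreeStar 8 from a * b) =
      mkA vamos (fun _ => 1) (show FreeStar 8 from a) *
        mkA vamos (fun _ => 1) (show FreeStar 8 from b) := map_mul (mkA vamos (fun _ => 1)) _ _
    rw [this]; exact ha.mul hb
  · intro a b ha hb
    have : mkA vamos (fun _ => 1) (show FreeStar 8 from a + b) =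
      mkA vamos (fun _ => 1) (show FreeStar 8 from a) +
        mkA vamos (fun _ => 1) (show FreeStar 8 from b) := map_add (mkA vamos (fun _ => 1)) _ _
    rw [this]; exact ha.add hb

/-- Conclusion of the argument. -/
theorem neg_one_mem : (-1 : CliffordAlg vamos (fun _ => 1)) ∈
    SS (CliffordAlg vamos (fun _ => 1)) := by
  let R := rad bdd_all
  letI : StarRing R.ringCon.Quotient := quotStar R (rad_star bdd_all)
  haveI : StarModule ℝ R.ringCon.Quotient := by
    constructor
    intro c x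
    obtain ⟨y, rfl⟩ := R.ringCon.mk'_surjective x
    have h1 : c • (R.ringCon.mk' y) = R.ringCon.mk' (c • y) := rfl
    have h2 : ∀ y, star (R.ringCon.mk' y) = R.ringCon.mk' (star y) := fun _ => rfl
    rw [h1, h2, star_smul, h2]
    rfl
  apply neg_one_mem_of_one bdd_all
  let φ : CliffordAlg vamos (fun _ => 1) →ₐ[ℝ] R.ringCon.Quotient := R.ringCon.mkₐ ℝ
  apply core (B := R.ringCon.Quotient) (proper_quot bdd_all)
    (fun i => φ (mkA vamos (fun _ => 1) (gen i)))
  · intro i
    have h2 : ∀ y, star (φ y) = φ (star y) := fun _ => rfl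
    rw [h2, ← mkA_star, star_gen]
  · intro a
    have h1 : ∑ i, a i • φ (mkA vamos (fun _ => 1) (gen i)) =
        φ (∑ i, a i • mkA vamos (fun _ => 1) (gen i)) := by
      rw [map_sum]
      exact Finset.sum_congr rfl fun i _ => (map_smul φ _ _).symm
    rw [h1, Polynomial.aeval_algHom_apply, relA, map_zero]

end Final

end Pool.Agent.LibVamos
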